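import Mathlib
import Pool.Agent.R283.WmpDiag

/-!
# The weak maximizing property does not pass to domain subspaces (MP_33858f_an)

Outline.  Let `X_n` be `ℓ⁴` with the equivalent norm
`2⁻ⁿ max (‖a‖₄, sup {∑_{j ∈ A} |a_j| : |A| ≤ 16ⁿ⁺¹})`, let `E₀` be the `ℓ⁴`-sum of the `X_n` and `Y`
the diagonal subspace of `E₀`.  An operator from `E₀` to a Hilbert space maps bounded
coordinatewise null sequences to null sequences (a Pitt-type argument, first in each `X_n`, then in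
`E₀`), hence every operator from `E = E₀ ⊕_∞ 𝕜` to a Hilbert space attains its norm.  Decomposing a
vector of `Y` into its level sets one sees that the `ℓ²` norm is bounded on `Y`.  As the norm of `Y`
is shift invariant, `S y = ((1 - 2^{-j-1}) y_j)_j` is a bounded operator from `Y` to `ℓ²` that does
not attain its norm.  So `(y, t) ↦ (S y, t)` is an operator from `Y ⊕_∞ 𝕜` to the Hilbert space
`ℓ² ⊕₂ 𝕜` that does not attain its norm, but has maximizing sequences `(y_k, 1)`.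
-/

set_option autoImplicit false
open Filter Topology

namespace Pool.Agent.Results.MP_33858f_an.DomainSubspace

section defs

variable (𝕜 : Type*) [RCLike 𝕜] {E F : Type*} [NormedAddCommGroup E] [NormedSpace 𝕜 E]
  [NormedAddCommGroup F] [NormedSpace 𝕜 F]

/-- `x` converges weakly to `0`. -/
def WeaklyNull (x : ℕ → E) : Prop :=
  ∀ f : E →L[𝕜] 𝕜, Tendsto (fun n => f (x n)) atTop (𝓝 0)

variable {𝕜}

/-- `x` is a maximizing sequence for `T`: it lies in the unit sphere and `‖T (x n)‖ → ‖T‖`. -/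
def MaximizingSeq (T : E →L[𝕜] F) (x : ℕ → E) : Prop :=
  (∀ n, ‖x n‖ = 1) ∧ Tendsto (fun n => ‖T (x n)‖) atTop (𝓝 ‖T‖)

/-- `T` attains its norm: `‖T x‖ = ‖T‖` for some `x` in the unit sphere. -/
def AttainsNorm (T : E →L[𝕜] F) : Prop := ∃ x : E, ‖x‖ = 1 ∧ ‖T x‖ = ‖T‖

variable (𝕜 E F)

/-- The weak maximizing property of the pair `(E, F)`: every operator from `E` to `F` that has a
non-weakly null maximizing sequence attains its norm. -/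
def WMP : Prop :=
  ∀ T : E →L[𝕜] F, (∃ x : ℕ → E, MaximizingSeq T x ∧ ¬ WeaklyNull 𝕜 x) → AttainsNorm T

end defs

open Pool.Agent.R283.Wmp

section

variable (𝕜 : Type*) [RCLike 𝕜]

/-- the range space -/
noncomputable abbrev FF := WithLp 2 (lp (fun _ : ℕ => 𝕜) 2 × 𝕜)

/-- the subspace -/
noncomputable abbrev E1 : Submodule 𝕜 (EE 𝕜 × 𝕜) := (YY 𝕜).prod ⊤

/-- the operator -/
noncomputable def T1 : E1 𝕜 →L[𝕜] FF 𝕜 :=
  ((WithLp.prodContinuousLinearEquiv 2 𝕜 (lp (fun _ : ℕ => 𝕜) 2) 𝕜).symm :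
    (lp (fun _ : ℕ => 𝕜) 2 × 𝕜) →L[𝕜] FF 𝕜).comp
  ((SS.comp (((ContinuousLinearMap.fst 𝕜 (EE 𝕜) 𝕜).comp (E1 𝕜).subtypeL).codRestrict (YY 𝕜)
    fun z => z.2.1)).prod ((ContinuousLinearMap.snd 𝕜 (EE 𝕜) 𝕜).comp (E1 𝕜).subtypeL))

variable {𝕜}

lemma norm_T1_sq (z : E1 𝕜) :
    ‖T1 𝕜 z‖ ^ 2 = ‖SS (⟨z.1.1, z.2.1⟩ : YY 𝕜)‖ ^ 2 + ‖z.1.2‖ ^ 2 :=
  WithLp.prod_norm_sq_eq_of_L2 (T1 𝕜 z)

lemma wmp_big : WMP 𝕜 (EE 𝕜 × 𝕜) (FF 𝕜) := by
  rintro T ⟨x, hx, _⟩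
  by_cases hT : ‖T‖ = 0
  · refine ⟨x 0, hx.1 0, ?_⟩
    have h1 := T.le_opNorm (x 0)
    rw [hT, zero_mul] at h1
    rw [hT]
    exact le_antisymm h1 (norm_nonneg _)
  · obtain ⟨z, hz1, hz2⟩ := attains T
    have hz0 : z ≠ 0 := by
      rintro rfl
      rw [map_zero, norm_zero] at hz2
      exact hT hz2.symm
    have hzn : 0 < ‖z‖ := norm_pos_iff.2 hz0
    have h1 := T.le_opNorm z
    have hTpos : 0 < ‖T‖ := lt_of_le_of_ne T.opNorm_nonneg (Ne.symm hT)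
    refine ⟨z, le_antisymm hz1 ?_, hz2⟩
    rw [hz2] at h1
    by_contra hlt
    push Not at hlt
    nlinarith

lemma not_wmp_small : ¬ WMP 𝕜 (E1 𝕜) (FF 𝕜) := by
  intro h
  set ν : ℝ := ‖SS (𝕜 := 𝕜)‖ with hν
  have hν0 : 0 ≤ ν := SS_nonneg
  -- upper bound for the norm of `T1`
  have hup : ‖T1 𝕜‖ ≤ Real.sqrt (ν ^ 2 + 1) := by
    refine ContinuousLinearMap.opNorm_le_bound _ (Real.sqrt_nonneg _) fun z => ?_
    have h1 : ‖T1 𝕜 z‖ ^ 2 ≤ (Real.sqrt (ν ^ 2 + 1) * ‖z‖) ^ 2 := by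
      rw [norm_T1_sq, mul_pow, Real.sq_sqrt (by positivity)]
      have h2 : ‖SS (⟨z.1.1, z.2.1⟩ : YY 𝕜)‖ ≤ ν * ‖z‖ := by
        refine ((SS (𝕜 := 𝕜)).le_opNorm _).trans ?_
        exact mul_le_mul_of_nonneg_left (norm_fst_le z.1) hν0
      have h3 : ‖z.1.2‖ ≤ ‖z‖ := norm_snd_le z.1
      have h4 := pow_le_pow_left₀ (norm_nonneg _) h2 2
      have h5 := pow_le_pow_left₀ (norm_nonneg _) h3 2
      rw [mul_pow] at h4
      linarith
    exact le_of_pow_le_pow_left₀ two_ne_zero (by positivity) h1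
  -- the maximizing sequence
  have hex : ∀ k : ℕ, ∃ y : YY 𝕜, ‖y‖ < 1 ∧ ν - 1 / ((k : ℝ) + 1) < ‖SS y‖ := by
    intro k
    refine ContinuousLinearMap.exists_lt_apply_of_lt_opNorm (SS (𝕜 := 𝕜)) ?_
    have : 0 < 1 / ((k : ℝ) + 1) := by positivity
    linarith
  choose y hy1 hy2 using hex
  have hylim : Tendsto (fun k => ‖SS (y k)‖) atTop (𝓝 ν) := by
    have h1 : Tendsto (fun k : ℕ => ν - 1 / ((k : ℝ) + 1)) atTop (𝓝 (ν - 0)) :=
      tendsto_one_div_add_atTop_nhds_zero_nat.const_sub _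
    rw [sub_zero] at h1
    refine tendsto_of_tendsto_of_tendsto_of_le_of_le h1 tendsto_const_nhds (fun k => (hy2 k).le) ?_
    intro k
    refine ((SS (𝕜 := 𝕜)).le_opNorm _).trans ?_
    exact mul_le_of_le_one_right hν0 (hy1 k).le
  let x : ℕ → E1 𝕜 := fun k => ⟨((y k : EE 𝕜), 1), (y k).2, trivial⟩
  have hx1 : ∀ k, ‖x k‖ = 1 := by
    intro k
    show ‖(((y k : EE 𝕜), (1 : 𝕜)) : EE 𝕜 × 𝕜)‖ = 1
    rw [Prod.norm_def, norm_one]
    exact max_eq_right (hy1 k).le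
  have hTx : Tendsto (fun k => ‖T1 𝕜 (x k)‖) atTop (𝓝 (Real.sqrt (ν ^ 2 + 1))) := by
    have h1 : ∀ k, ‖T1 𝕜 (x k)‖ = Real.sqrt (‖SS (y k)‖ ^ 2 + 1) := by
      intro k
      have h2 := norm_T1_sq (x k)
      have h3 : ‖(x k).1.2‖ = 1 := norm_one
      rw [h3, one_pow] at h2
      have h4 : (⟨(x k).1.1, (x k).2.1⟩ : YY 𝕜) = y k := rfl
      rw [h4] at h2
      rw [← h2, Real.sqrt_sq (norm_nonneg _)]
    simp only [h1]
    exact (Real.continuous_sqrt.tendsto _).comp ((hylim.pow 2).add_const 1)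
  have hTn : ‖T1 𝕜‖ = Real.sqrt (ν ^ 2 + 1) := by
    refine le_antisymm hup (le_of_tendsto' hTx fun k => ?_)
    refine ((T1 𝕜).le_opNorm _).trans ?_
    rw [hx1, mul_one]
  obtain ⟨z, hz1, hz2⟩ := h (T1 𝕜) ⟨x, ⟨hx1, hTn ▸ hTx⟩, by
    intro hw
    have h1 := hw ((ContinuousLinearMap.snd 𝕜 (EE 𝕜) 𝕜).comp (E1 𝕜).subtypeL)
    have h2 : Tendsto (fun _ : ℕ => (1 : 𝕜)) atTop (𝓝 0) := h1
    exact one_ne_zero (tendsto_nhds_unique tendsto_const_nhds h2)⟩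
  have h1 := norm_T1_sq z
  rw [hz2, hTn, Real.sq_sqrt (by positivity)] at h1
  have h2 : ‖(⟨z.1.1, z.2.1⟩ : YY 𝕜)‖ ≤ 1 := (norm_fst_le z.1).trans hz1.le
  have h3 : ‖z.1.2‖ ≤ 1 := (norm_snd_le z.1).trans hz1.le
  have h4 := SS_not_attained _ h2
  have h5 : ‖SS (⟨z.1.1, z.2.1⟩ : YY 𝕜)‖ ^ 2 < ν ^ 2 :=
    pow_lt_pow_left₀ h4 (norm_nonneg _) two_ne_zero
  have h6 : ‖z.1.2‖ ^ 2 ≤ 1 := pow_le_one₀ (norm_nonneg _) h3
  linarith

end

/-- **Answer to Q1 (no), for real and for complex scalars.**  There are Banach spaces `E`, `F` and a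
closed subspace `E₁` of `E` such that `(E, F)` has the weak maximizing property but `(E₁, F)` does
not. -/
theorem result.{u} (𝕜 : Type u) [RCLike 𝕜] :
    ∃ (E F : Type u) (_ : NormedAddCommGroup E) (_ : NormedSpace 𝕜 E) (_ : CompleteSpace E)
      (_ : NormedAddCommGroup F) (_ : NormedSpace 𝕜 F) (_ : CompleteSpace F)
      (E₁ : Submodule 𝕜 E), IsClosed (E₁ : Set E) ∧ WMP 𝕜 E F ∧ ¬ WMP 𝕜 E₁ F :=
  ⟨EE 𝕜 × 𝕜, FF 𝕜, inferInstance, inferInstance, inferInstance, inferInstance, inferInstance,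
    inferInstance, E1 𝕜, isClosed_YY.prod isClosed_univ, wmp_big, not_wmp_small⟩

end Pool.Agent.Results.MP_33858f_an.DomainSubspace
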